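import Mathlib
import Pool.Agent.H630R2.LA.Lower

set_option autoImplicit false

namespace Pool.Agent.Results.MP_0036f5_lc.Growth

open Pool.Agent.H630R2.LA

/-- The machine without moves. -/
def trivialM : LimAut Empty where
  Q := Unit
  W := Empty
  finQ := inferInstance
  finW := inferInstance
  inp := id
  inp_inj := fun _ _ h => h
  δ := fun _ _ => ∅
  q0 := ()
  F := ∅

theorem size_trivialM : trivialM.size = 4 := by
  have h : trivialM.numTrans = 0 := by
    unfold LimAut.numTrans
    have : {t : trivialM.Q × Sym trivialM.W × trivialM.Q × trivialM.W × Bool |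
        t.2.2 ∈ trivialM.δ t.1 t.2.1} = ∅ := by
      ext t
      exact ⟨fun h => h, fun h => h⟩
    rw [this, Set.ncard_empty]
  unfold LimAut.size
  rw [h]
  have h1 : Nat.card trivialM.Q = 1 := Nat.card_unique (α := Unit)
  have h2 : Nat.card trivialM.W = 0 := Nat.card_of_isEmpty (α := Empty)
  have h3 : trivialM.F.ncard = 0 := Set.ncard_empty _
  have h4 : Nat.card Empty = 0 := Nat.card_of_isEmpty
  omega

theorem detSize_le (strict : Prop) {A : Type} [Finite A] (M : LimAut A) :
    detSize strict (M.language strict) ≤ 2 ^ ((M.size + 2) ^ 4) := by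
  obtain ⟨M', h1, h2, h3⟩ := upper M strict
  have h4 : detSize strict (M.language strict) ≤ M'.size := Nat.sInf_le ⟨M', h1, h2, rfl⟩
  exact h4.trans h3

theorem mem_costs_le (strict : Prop) (n s : ℕ) (hs : s ∈ costs strict n) :
    s ≤ 2 ^ ((n + 2) ^ 4) := by
  obtain ⟨A, hA, M, hM, rfl⟩ := hs
  refine (detSize_le strict M).trans ?_
  apply Nat.pow_le_pow_right (by omega)
  exact Nat.pow_le_pow_left (by omega) 4

theorem bdd (strict : Prop) (n : ℕ) : BddAbove (costs strict n) :=
  ⟨2 ^ ((n + 2) ^ 4), fun s hs => mem_costs_le strict n s hs⟩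

theorem le_detSize (strict : Prop) (n : ℕ) (hn : 2 ≤ n) :
    2 ^ n ≤ detSize strict ((witM n).language strict) ^ 2 := by
  obtain ⟨M', h1, h2, -⟩ := upper (witM n) strict
  have hne : {s | ∃ M : LimAut Bool, M.Deterministic ∧
      M.language strict = (witM n).language strict ∧ M.size = s}.Nonempty := ⟨_, M', h1, h2, rfl⟩
  obtain ⟨M, h3, h4, h5⟩ := Nat.sInf_mem hne
  have h6 : M.size = detSize strict ((witM n).language strict) := h5
  rw [← h6]
  exact lower hn strict M h3 h4

theorem D_lower (strict : Prop) (m : ℕ) (hm : 1800 ≤ m) : 2 ^ m ≤ D strict m ^ 2400 := by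
  obtain ⟨n, hn, h1, h2⟩ : ∃ n, 2 ≤ n ∧ 600 * (n + 1) ≤ m ∧ m ≤ 600 * (n + 2) :=
    ⟨m / 600 - 1, by omega, by omega, by omega⟩
  have hmem : detSize strict ((witM n).language strict) ∈ costs strict m :=
    ⟨Bool, inferInstance, witM n, (size_witM n).trans h1, rfl⟩
  have h3 : detSize strict ((witM n).language strict) ≤ D strict m :=
    le_csSup (bdd strict m) hmem
  have h4 := le_detSize strict n hn
  calc 2 ^ m ≤ 2 ^ (n * 1200) := Nat.pow_le_pow_right (by omega) (by omega)
    _ = (2 ^ n) ^ 1200 := by rw [pow_mul]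
    _ ≤ (detSize strict ((witM n).language strict) ^ 2) ^ 1200 := Nat.pow_le_pow_left h4 _
    _ ≤ (D strict m ^ 2) ^ 1200 := Nat.pow_le_pow_left (Nat.pow_le_pow_left h3 2) _
    _ = D strict m ^ 2400 := by rw [← pow_mul]

/-- The cost `D(n)` of determinizing 1-limited automata is singly exponential. Every 1-limited
automaton of size `n` has an equivalent deterministic one of size at most `2 ^ ((n + 2) ^ 4)`;
`D(n)` is an attained maximum for every `n ≥ 4`, and
`2 ^ (n / 2400) ≤ D(n) ≤ 2 ^ ((n + 2) ^ 4)` for every `n ≥ 1800` (the first inequality is stated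
as `2 ^ n ≤ D(n) ^ 2400`). This holds for both readings `strict` of the rule that visited cells
are frozen. -/
theorem result (strict : Prop) :
    (∀ (A : Type) [Finite A] (M : LimAut A), ∃ M' : LimAut A, M'.Deterministic ∧
      M'.language strict = M.language strict ∧ M'.size ≤ 2 ^ ((M.size + 2) ^ 4)) ∧
    (∀ n : ℕ, 4 ≤ n → IsGreatest (costs strict n) (D strict n)) ∧
    (∀ n : ℕ, 1800 ≤ n → 2 ^ n ≤ D strict n ^ 2400 ∧ D strict n ≤ 2 ^ ((n + 2) ^ 4)) := by
  refine ⟨fun A _ M => upper M strict, ?_, ?_⟩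
  · intro n hn
    have hne : (costs strict n).Nonempty :=
      ⟨_, Empty, inferInstance, trivialM, by rw [size_trivialM]; exact hn, rfl⟩
    exact ⟨Nat.sSup_mem hne (bdd strict n), fun s hs => le_csSup (bdd strict n) hs⟩
  · intro n hn
    refine ⟨D_lower strict n hn, ?_⟩
    have hne : (costs strict n).Nonempty :=
      ⟨_, Empty, inferInstance, trivialM, by rw [size_trivialM]; omega, rfl⟩
    exact mem_costs_le strict n _ (Nat.sSup_mem hne (bdd strict n))

end Pool.Agent.Results.MP_0036f5_lc.Growth
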